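import Mathlib

set_option autoImplicit false

namespace Pool.Agent.Helper3.Nim

/-- The defining rules of the nim product. -/
structure IsNimMul (mul : ℕ → ℕ → ℕ) : Prop where
  small : ∀ a n : ℕ, n < 2 ^ (2 ^ a) → mul (2 ^ (2 ^ a)) n = 2 ^ (2 ^ a) * n
  sq : ∀ a : ℕ, mul (2 ^ (2 ^ a)) (2 ^ (2 ^ a)) = 3 * 2 ^ (2 ^ a) / 2
  comm : ∀ x y : ℕ, mul x y = mul y x
  assoc : ∀ x y z : ℕ, mul (mul x y) z = mul x (mul y z)
  distrib : ∀ x y z : ℕ, mul x (y ^^^ z) = mul x y ^^^ mul x z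

lemma add_eq_xor (i a b : ℕ) (hb : b < 2 ^ i) : 2 ^ i * a + b = (2 ^ i * a) ^^^ b := by
  apply Nat.eq_of_testBit_eq
  intro j
  rw [Nat.testBit_xor, Nat.testBit_two_pow_mul_add a hb, Nat.testBit_two_pow_mul]
  by_cases h : j < i
  · simp [h, Nat.not_le.2 h]
  · have h1 : i ≤ j := Nat.not_lt.1 h
    have h2 : b.testBit j = false :=
      Nat.testBit_lt_two_pow (hb.trans_le (Nat.pow_le_pow_right (by norm_num) h1))
    simp [h, h1, h2]

/-- `F a = 2^(2^a)` -/
def F (a : ℕ) : ℕ := 2 ^ (2 ^ a)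

/-- `h a = F a / 2` -/
def h (a : ℕ) : ℕ := 2 ^ (2 ^ a - 1)

lemma one_le (a : ℕ) : 1 ≤ 2 ^ a := Nat.one_le_two_pow

lemma two_h (a : ℕ) : 2 * h a = F a := by
  unfold h F
  rw [← pow_succ', Nat.sub_add_cancel (one_le a)]

lemma h_pos (a : ℕ) : 0 < h a := by unfold h; positivity
lemma F_pos (a : ℕ) : 0 < F a := by unfold F; positivity

lemma h_lt (a : ℕ) : h a < F a := by
  have := two_h a
  have := h_pos a
  omega

lemma one_lt_F (a : ℕ) : 1 < F a := by
  have := two_h a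
  have := h_pos a
  omega

lemma F_succ (a : ℕ) : F (a + 1) = F a * F a := by
  unfold F
  rw [← pow_add, pow_succ]
  congr 1
  ring

lemma h_succ (a : ℕ) : h (a + 1) = F a * h a := by
  have h1 := two_h (a + 1)
  have h2 := two_h a
  have h3 := F_succ a
  have : 2 * h (a + 1) = 2 * (F a * h a) := by
    rw [h1, h3]
    calc F a * F a = F a * (2 * h a) := by rw [h2]
      _ = _ := by ring
  omega

variable {mul : ℕ → ℕ → ℕ}

lemma split_lt (a : ℕ) {x : ℕ} (hx : x < F (a + 1)) :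
    ∃ x1 x0, x1 < F a ∧ x0 < F a ∧ x = (F a * x1) ^^^ x0 := by
  refine ⟨x / F a, x % F a, ?_, Nat.mod_lt _ (F_pos a), ?_⟩
  · rw [F_succ] at hx
    exact Nat.div_lt_of_lt_mul hx
  · have := add_eq_xor (2 ^ a) (x / F a) (x % F a) (Nat.mod_lt _ (F_pos a))
    have h2 := Nat.div_add_mod x (F a)
    unfold F at *
    rw [← this, h2]

lemma F_xor_h (a : ℕ) : 3 * F a / 2 = F a ^^^ h a := by
  have h1 := add_eq_xor (2 ^ a) 1 (h a) (h_lt a)
  have h2 := two_h a
  rw [mul_one] at h1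
  have h3 : 2 ^ 2 ^ a = F a := rfl
  rw [h3] at h1
  omega

lemma xor_lt {a x y : ℕ} (hx : x < F a) (hy : y < F a) : x ^^^ y < F a :=
  Nat.xor_lt_two_pow hx hy

lemma mul_lt_F {a x : ℕ} (hx : x < F a) : F a * x < F (a + 1) := by
  rw [F_succ]
  exact Nat.mul_lt_mul_of_pos_left hx (F_pos a)

lemma F_le_succ (a : ℕ) : F a ≤ F (a + 1) := by
  rw [F_succ]
  exact Nat.le_mul_of_pos_left _ (F_pos a)

section
variable (H : IsNimMul mul)
include H

lemma small' {a n : ℕ} (hn : n < F a) : mul (F a) n = F a * n := H.small a n hn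

lemma sq' (a : ℕ) : mul (F a) (F a) = F a ^^^ h a := by
  rw [← F_xor_h]; exact H.sq a

lemma mul_zero' (x : ℕ) : mul x 0 = 0 := by
  have := H.distrib x 0 0
  rwa [Nat.xor_self, Nat.xor_self] at this

lemma zero_mul' (x : ℕ) : mul 0 x = 0 := by
  rw [H.comm]; exact mul_zero' H x

lemma distrib' (x y z : ℕ) : mul (x ^^^ y) z = mul x z ^^^ mul y z := by
  rw [H.comm, H.distrib, H.comm z x, H.comm z y]

lemma one_one : mul 1 1 = 1 := by
  have h21 : mul 2 1 = 2 := H.small 0 1 (by norm_num)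
  have h22 : mul 2 2 = 3 := by
    have := H.sq 0
    simpa using this
  have h23 : mul 2 3 = 1 := by
    have e : (3 : ℕ) = 2 ^^^ 1 := by decide
    rw [e, H.distrib, h22, h21]
    decide
  calc mul 1 1 = mul (mul 2 3) 1 := by rw [h23]
    _ = mul (mul 3 2) 1 := by rw [H.comm 2 3]
    _ = mul 3 (mul 2 1) := H.assoc _ _ _
    _ = mul 3 2 := by rw [h21]
    _ = mul 2 3 := H.comm _ _
    _ = 1 := h23

lemma rearr (x y z w : ℕ) : mul (mul x y) (mul z w) = mul (mul x z) (mul y w) := by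
  rw [H.assoc, H.assoc, ← H.assoc y z w, H.comm y z, H.assoc z y w]

lemma left_comm' (x y z : ℕ) : mul x (mul y z) = mul y (mul x z) := by
  rw [← H.assoc, H.comm x y, H.assoc]

lemma closure : ∀ (a : ℕ) {x y : ℕ}, x < F a → y < F a → mul x y < F a := by
  intro a
  induction a with
  | zero =>
    intro x y hx hy
    have hF : F 0 = 2 := rfl
    have hx2 : x < 2 := hx
    have hy2 : y < 2 := hy
    rw [hF]
    interval_cases x <;> interval_cases y
    · rw [mul_zero' H]; norm_num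
    · rw [zero_mul' H]; norm_num
    · rw [mul_zero' H]; norm_num
    · rw [one_one H]; norm_num
  | succ a ih =>
    intro x y hx hy
    obtain ⟨x1, x0, hx1, hx0, rfl⟩ := split_lt a hx
    obtain ⟨y1, y0, hy1, hy0, rfl⟩ := split_lt a hy
    rw [← small' H hx1, ← small' H hy1, H.distrib, distrib' H, distrib' H]
    have t1 : mul (mul (F a) x1) (mul (F a) y1)
        = (F a * mul x1 y1) ^^^ mul (h a) (mul x1 y1) := by
      rw [rearr H, sq' H, distrib' H, small' H (ih hx1 hy1)]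
    have t2 : mul x0 (mul (F a) y1) = F a * mul x0 y1 := by
      rw [left_comm' H, small' H (ih hx0 hy1)]
    have t3 : mul (mul (F a) x1) y0 = F a * mul x1 y0 := by
      rw [H.assoc, small' H (ih hx1 hy0)]
    rw [t1, t2, t3]
    have hle := F_le_succ a
    refine xor_lt (xor_lt (xor_lt (mul_lt_F (ih hx1 hy1)) ?_) (mul_lt_F (ih hx0 hy1)))
      (xor_lt (mul_lt_F (ih hx1 hy0)) ((ih hx0 hy0).trans_le hle))
    exact (ih (h_lt a) (ih hx1 hy1)).trans_le hle

lemma one_mul' : ∀ (a : ℕ) {x : ℕ}, x < F a → mul 1 x = x := by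
  intro a
  induction a with
  | zero =>
    intro x hx
    have hx2 : x < 2 := hx
    interval_cases x
    · exact mul_zero' H 1
    · exact one_one H
  | succ a ih =>
    intro x hx
    obtain ⟨x1, x0, hx1, hx0, rfl⟩ := split_lt a hx
    rw [H.distrib, ih hx0, ← small' H hx1, ← H.assoc, H.comm 1 (F a), small' H (one_lt_F a),
      mul_one]

lemma h_succ' (a : ℕ) : h (a + 1) = mul (F a) (h a) := by
  rw [h_succ, small' H (h_lt a)]

lemma exists_inv : ∀ a : ℕ, ∃ g, g < F a ∧ mul (h a) g = 1 := by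
  intro a
  induction a with
  | zero => exact ⟨1, one_lt_F 0, one_one H⟩
  | succ a ih =>
    obtain ⟨g, hg, hg1⟩ := ih
    have hgg := closure H a hg hg
    have hF1 : F a ^^^ 1 < F (a + 1) := by
      refine xor_lt ?_ ((one_lt_F a).trans_le (F_le_succ a))
      have := mul_lt_F (one_lt_F a)
      rwa [mul_one] at this
    refine ⟨mul (F a ^^^ 1) (mul g g), closure H _ hF1 (hgg.trans_le (F_le_succ a)), ?_⟩
    have hfh : mul (F a) (F a ^^^ 1) = h a := by
      rw [H.distrib, sq' H, small' H (one_lt_F a), mul_one, Nat.xor_comm (F a) (h a),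
        Nat.xor_assoc, Nat.xor_self, Nat.xor_zero]
    rw [h_succ' H, rearr H, hfh, ← H.assoc (h a) g g, hg1, one_mul' H a hg, hg1]

/-- parity of the nim square -/
lemma sq_add (x y : ℕ) : mul (x ^^^ y) (x ^^^ y) = mul x x ^^^ mul y y := by
  rw [H.distrib, distrib' H, distrib' H, H.comm y x]
  rw [Nat.xor_assoc, ← Nat.xor_assoc (mul x y) (mul x y) (mul y y), Nat.xor_self, Nat.zero_xor]

end

lemma xor_even {x y : ℕ} (hx : x % 2 = 0) : (x ^^^ y) % 2 = y % 2 := by
  rw [Nat.xor_mod_two_eq]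
  omega

lemma F_mul_even (a x : ℕ) : (F a * x) % 2 = 0 := by
  have := two_h a
  rw [← this, mul_assoc]
  exact Nat.mul_mod_right 2 _

section
variable (H : IsNimMul mul)
include H

lemma pow_eq {a i : ℕ} (hi : i < 2 ^ a) : 2 ^ (2 ^ a + i) = mul (F a) (2 ^ i) := by
  have hlt : 2 ^ i < F a := Nat.pow_lt_pow_right (by norm_num) hi
  rw [small' H hlt, pow_add]
  rfl

lemma claimA {a i : ℕ} (hi : i < 2 ^ a) :
    mul (2 ^ (2 ^ (a + 1) + i)) (2 ^ (2 ^ (a + 1) + i)) % 2 = 0 := by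
  have hi' : i < 2 ^ (a + 1) := hi.trans (Nat.pow_lt_pow_right (by norm_num) (Nat.lt_succ_self a))
  have hlt : 2 ^ i < F a := Nat.pow_lt_pow_right (by norm_num) hi
  have hy := closure H a hlt hlt
  rw [pow_eq H hi', rearr H, sq' H, distrib' H,
    small' H (hy.trans_le (F_le_succ a)), xor_even (F_mul_even _ _), h_succ' H, H.assoc,
    small' H (closure H a (h_lt a) hy)]
  exact F_mul_even _ _

lemma parityB {a j : ℕ} (hj : j < 2 ^ a) :
    mul (2 ^ (2 ^ (a + 1) + (2 ^ a + j))) (2 ^ (2 ^ (a + 1) + (2 ^ a + j))) % 2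
      = mul (mul (h a) (2 ^ j)) (mul (h a) (2 ^ j)) % 2 := by
  have hi' : 2 ^ a + j < 2 ^ (a + 1) := by rw [pow_succ]; omega
  have hlt : 2 ^ j < F a := Nat.pow_lt_pow_right (by norm_num) hj
  have hy := closure H a hlt hlt
  set y := mul (2 ^ j) (2 ^ j) with hydef
  have hz : mul (2 ^ (2 ^ a + j)) (2 ^ (2 ^ a + j)) = mul (F a ^^^ h a) y := by
    rw [pow_eq H hj, rearr H, sq' H]
  have hzlt : mul (F a ^^^ h a) y < F (a + 1) := by
    refine closure H _ ?_ (hy.trans_le (F_le_succ a))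
    have := mul_lt_F (one_lt_F a)
    rw [mul_one] at this
    exact xor_lt this ((h_lt a).trans_le (F_le_succ a))
  rw [pow_eq H hi', rearr H, sq' H, distrib' H, hz, small' H hzlt, xor_even (F_mul_even _ _),
    h_succ' H]
  have e1 : mul (mul (F a) (h a)) (mul (F a ^^^ h a) y)
      = mul (mul (F a) (F a ^^^ h a)) (mul (h a) y) := by rw [rearr H]
  have e2 : mul (F a) (F a ^^^ h a) = mul (F a) (1 ^^^ h a) ^^^ h a := by
    rw [H.distrib, H.distrib, sq' H, small' H (one_lt_F a), mul_one]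
    rw [Nat.xor_assoc, Nat.xor_assoc, Nat.xor_comm (h a)]
  have hhy := closure H a (h_lt a) hy
  have h1h : mul (1 ^^^ h a) (mul (h a) y) < F a :=
    closure H a (xor_lt (one_lt_F a) (h_lt a)) hhy
  rw [e1, e2, distrib' H, H.assoc, small' H h1h, xor_even (F_mul_even _ _), rearr H (h a),
    H.assoc]

omit H in
lemma additive_zero (ψ : ℕ → ℕ) (hψ : ∀ x y, ψ (x ^^^ y) % 2 = (ψ x + ψ y) % 2)
    (k : ℕ) (hk : ∀ j < k, ψ (2 ^ j) % 2 = 0) : ∀ x < 2 ^ k, ψ x % 2 = 0 := by
  induction k with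
  | zero =>
    intro x hx
    have : x = 0 := by simpa using hx
    subst this
    have := hψ 0 0
    rw [Nat.xor_self] at this
    omega
  | succ k ih =>
    intro x hx
    by_cases hlt : x < 2 ^ k
    · exact ih (fun j hj => hk j (hj.trans (Nat.lt_succ_self k))) x hlt
    · have e : x = 2 ^ k * 1 + (x - 2 ^ k) := by omega
      have hlt2 : x - 2 ^ k < 2 ^ k := by rw [pow_succ] at hx; omega
      rw [add_eq_xor k 1 _ hlt2, mul_one] at e
      rw [e, hψ]
      have h1 := hk k (Nat.lt_succ_self k)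
      have h2 := ih (fun j hj => hk j (hj.trans (Nat.lt_succ_self k))) _ hlt2
      omega

lemma claimB (a : ℕ) : ∃ j < 2 ^ a,
    mul (2 ^ (2 ^ (a + 1) + (2 ^ a + j))) (2 ^ (2 ^ (a + 1) + (2 ^ a + j))) % 2 = 1 := by
  by_contra hcon
  push Not at hcon
  have h0 : ∀ j < 2 ^ a, mul (mul (h a) (2 ^ j)) (mul (h a) (2 ^ j)) % 2 = 0 := by
    intro j hj
    have := hcon j hj
    rw [parityB H hj] at this
    omega
  have hall := additive_zero (fun x => mul (mul (h a) x) (mul (h a) x)) (fun x y => by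
    show mul (mul (h a) (x ^^^ y)) (mul (h a) (x ^^^ y)) % 2 = _
    rw [H.distrib, sq_add H, Nat.xor_mod_two_eq]) (2 ^ a) h0
  obtain ⟨g, hg, hg1⟩ := exists_inv H a
  have := hall g hg
  simp only [hg1, one_one H] at this
  omega

end

end Pool.Agent.Helper3.Nim
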