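import Pool.Agent.Helper3.Nim.Basic

set_option autoImplicit false

namespace Pool.Agent.Helper3.Nim

/-- One floor of the tower of finite fields. -/
structure Lv where
  K : Type
  ring : CommRing K
  hh : K
  toN : K → ℕ

/-- The tower. -/
noncomputable def lv : ℕ → Lv
  | 0 => ⟨ZMod 2, inferInstance, 1, ZMod.val⟩
  | a + 1 =>
    letI := (lv a).ring
    ⟨QuadraticAlgebra (lv a).K (lv a).hh 1, inferInstance, ⟨0, (lv a).hh⟩,
      fun x => F a * (lv a).toN x.im + (lv a).toN x.re⟩

noncomputable instance (a : ℕ) : CommRing (lv a).K := (lv a).ring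

noncomputable def mk (a : ℕ) (re im : (lv a).K) : (lv (a + 1)).K :=
  (⟨re, im⟩ : QuadraticAlgebra (lv a).K (lv a).hh 1)

lemma mk_surj (a : ℕ) (x : (lv (a + 1)).K) : ∃ re im, x = mk a re im :=
  ⟨QuadraticAlgebra.re (R := (lv a).K) (a := (lv a).hh) (b := 1) x,
    QuadraticAlgebra.im (R := (lv a).K) (a := (lv a).hh) (b := 1) x, rfl⟩

lemma mk_add (a : ℕ) (x y z w : (lv a).K) : mk a x y + mk a z w = mk a (x + z) (y + w) := rfl

lemma mk_mul (a : ℕ) (x y z w : (lv a).K) :
    mk a x y * mk a z w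
      = mk a (x * z + (lv a).hh * y * w) (x * w + y * z + 1 * y * w) := rfl

lemma mk_zero (a : ℕ) : (0 : (lv (a + 1)).K) = mk a 0 0 := rfl
lemma mk_one (a : ℕ) : (1 : (lv (a + 1)).K) = mk a 1 0 := rfl
lemma mk_hh (a : ℕ) : (lv (a + 1)).hh = mk a 0 (lv a).hh := rfl

lemma toN_mk (a : ℕ) (x y : (lv a).K) :
    (lv (a + 1)).toN (mk a x y) = F a * (lv a).toN y + (lv a).toN x := rfl

lemma toN_lt : ∀ (a : ℕ) (x : (lv a).K), (lv a).toN x < F a := by
  intro a
  induction a with
  | zero => intro x; exact ZMod.val_lt (n := 2) x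
  | succ a ih =>
    intro x
    obtain ⟨re, im, rfl⟩ := mk_surj a x
    rw [toN_mk, F_succ]
    have h1 := ih re
    have h2 := ih im
    calc F a * (lv a).toN im + (lv a).toN re < F a * (lv a).toN im + F a := by omega
      _ = F a * ((lv a).toN im + 1) := by ring
      _ ≤ F a * F a := Nat.mul_le_mul_left _ h2

lemma toN_inj : ∀ (a : ℕ), Function.Injective (lv a).toN := by
  intro a
  induction a with
  | zero => exact ZMod.val_injective 2
  | succ a ih =>
    intro x y hxy
    obtain ⟨re, im, rfl⟩ := mk_surj a x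
    obtain ⟨re', im', rfl⟩ := mk_surj a y
    rw [toN_mk, toN_mk] at hxy
    have h1 := toN_lt a re
    have h2 := toN_lt a re'
    have h3 : (lv a).toN im = (lv a).toN im' := by
      have := congrArg (· / F a) hxy
      simpa [Nat.mul_add_div (F_pos a), Nat.div_eq_of_lt h1, Nat.div_eq_of_lt h2] using this
    have h4 : (lv a).toN re = (lv a).toN re' := by
      rw [h3] at hxy
      omega
    rw [ih h3, ih h4]

lemma toN_surj : ∀ (a n : ℕ), n < F a → ∃ x, (lv a).toN x = n := by
  intro a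
  induction a with
  | zero =>
    intro n hn
    exact ⟨(n : ZMod 2), ZMod.val_cast_of_lt hn⟩
  | succ a ih =>
    intro n hn
    rw [F_succ] at hn
    obtain ⟨im, him⟩ := ih (n / F a) (Nat.div_lt_of_lt_mul hn)
    obtain ⟨re, hre⟩ := ih (n % F a) (Nat.mod_lt _ (F_pos a))
    refine ⟨mk a re im, ?_⟩
    rw [toN_mk, him, hre, Nat.div_add_mod]

lemma toN_eq_xor (a : ℕ) (x y : (lv a).K) :
    (lv (a + 1)).toN (mk a x y) = (F a * (lv a).toN y) ^^^ (lv a).toN x :=
  add_eq_xor (2 ^ a) _ _ (toN_lt a x)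

lemma mul_xor (i x y : ℕ) : 2 ^ i * (x ^^^ y) = (2 ^ i * x) ^^^ (2 ^ i * y) := by
  apply Nat.eq_of_testBit_eq
  intro j
  rw [Nat.testBit_xor, Nat.testBit_two_pow_mul, Nat.testBit_two_pow_mul, Nat.testBit_two_pow_mul,
    Nat.testBit_xor]
  by_cases h : j ≥ i <;> simp [h]

lemma toN_add : ∀ (a : ℕ) (x y : (lv a).K),
    (lv a).toN (x + y) = (lv a).toN x ^^^ (lv a).toN y := by
  intro a
  induction a with
  | zero =>
    have key : ∀ x y : ZMod 2, (x + y).val = x.val ^^^ y.val := by decide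
    exact key
  | succ a ih =>
    intro x y
    obtain ⟨re, im, rfl⟩ := mk_surj a x
    obtain ⟨re', im', rfl⟩ := mk_surj a y
    rw [mk_add, toN_eq_xor, toN_eq_xor, toN_eq_xor, ih, ih]
    have := mul_xor (2 ^ a) ((lv a).toN im) ((lv a).toN im')
    have e : (2 : ℕ) ^ 2 ^ a = F a := rfl
    rw [e] at this
    rw [this]
    simp only [Nat.xor_assoc]
    congr 1
    rw [← Nat.xor_assoc, ← Nat.xor_assoc, Nat.xor_comm (F a * _)]

lemma toN_zero : ∀ a : ℕ, (lv a).toN 0 = 0 := by
  intro a
  have := toN_add a 0 0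
  rw [add_zero, Nat.xor_self] at this
  exact this

lemma toN_one : ∀ a : ℕ, (lv a).toN 1 = 1 := by
  intro a
  induction a with
  | zero => rfl
  | succ a ih => rw [mk_one, toN_mk, ih, toN_zero, mul_zero]

lemma toN_hh : ∀ a : ℕ, (lv a).toN (lv a).hh = h a := by
  intro a
  induction a with
  | zero => rfl
  | succ a ih => rw [mk_hh, toN_mk, ih, toN_zero, add_zero, h_succ]

/-- inverse of `toN` -/
noncomputable def ofN (a n : ℕ) : (lv a).K :=
  haveI : Nonempty (lv a).K := ⟨0⟩
  Function.invFun (lv a).toN n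

lemma toN_ofN (a n : ℕ) (hn : n < F a) : (lv a).toN (ofN a n) = n := by
  have : Nonempty (lv a).K := ⟨0⟩
  exact Function.invFun_eq (toN_surj a n hn)

lemma ofN_toN (a : ℕ) (x : (lv a).K) : ofN a ((lv a).toN x) = x := by
  have : Nonempty (lv a).K := ⟨0⟩
  exact Function.leftInverse_invFun (toN_inj a) x

/-- multiplication on floor `a` -/
noncomputable def mulL (a x y : ℕ) : ℕ := (lv a).toN (ofN a x * ofN a y)

lemma ofN_succ (a x : ℕ) (hx : x < F a) : ofN (a + 1) x = mk a (ofN a x) 0 := by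
  have h1 : (lv (a + 1)).toN (mk a (ofN a x) 0) = x := by
    rw [toN_mk, toN_zero, mul_zero, zero_add, toN_ofN a x hx]
  conv_lhs => rw [← h1]
  exact ofN_toN _ _

lemma mulL_succ (a x y : ℕ) (hx : x < F a) (hy : y < F a) : mulL (a + 1) x y = mulL a x y := by
  unfold mulL
  rw [ofN_succ a x hx, ofN_succ a y hy, mk_mul, toN_mk]
  simp only [mul_zero, add_zero, zero_mul, toN_zero, zero_add]

lemma F_mono {a b : ℕ} (hab : a ≤ b) : F a ≤ F b :=
  Nat.pow_le_pow_right (by norm_num) (Nat.pow_le_pow_right (by norm_num) hab)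

lemma mulL_stable {a b x y : ℕ} (hab : a ≤ b) (hx : x < F a) (hy : y < F a) :
    mulL b x y = mulL a x y := by
  induction b, hab using Nat.le_induction with
  | base => rfl
  | succ b hab ih =>
    rw [mulL_succ b x y (hx.trans_le (F_mono hab)) (hy.trans_le (F_mono hab)), ih]

/-- The nim product. -/
noncomputable def nim (x y : ℕ) : ℕ := mulL (x + y) x y

lemma lt_F (n : ℕ) : n < F n := by
  have h1 : n < 2 ^ n := Nat.lt_two_pow_self
  have h2 : 2 ^ n < 2 ^ 2 ^ n := Nat.lt_two_pow_self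
  exact h1.trans h2

lemma nim_eq {a x y : ℕ} (hx : x < F a) (hy : y < F a) : nim x y = mulL a x y := by
  unfold nim
  have h1 : x < F (x + y) := (lt_F x).trans_le (F_mono (by omega))
  have h2 : y < F (x + y) := (lt_F y).trans_le (F_mono (by omega))
  rcases le_total a (x + y) with h | h
  · exact mulL_stable h hx hy
  · exact (mulL_stable h h1 h2).symm

lemma mulL_lt (a x y : ℕ) : mulL a x y < F a := toN_lt _ _

theorem isNimMul_nim : IsNimMul nim where
  small a n hn := by
    have hn' : n < F a := hn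
    have e : (2 : ℕ) ^ 2 ^ a = F a := rfl
    rw [e]
    have hF : F a < F (a + 1) := by
      have := mul_lt_F (one_lt_F a)
      rwa [mul_one] at this
    rw [nim_eq hF (hn'.trans hF)]
    unfold mulL
    have h1 : ofN (a + 1) (F a) = mk a 0 1 := by
      have h1 : (lv (a + 1)).toN (mk a 0 1) = F a := by
        rw [toN_mk, toN_zero, toN_one]; ring
      conv_lhs => rw [← h1]
      exact ofN_toN _ _
    rw [h1, ofN_succ a n hn', mk_mul, toN_mk]
    simp only [mul_zero, add_zero, zero_mul, zero_add, one_mul, toN_zero, toN_ofN a n hn']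
  sq a := by
    have e : (2 : ℕ) ^ 2 ^ a = F a := rfl
    rw [e]
    have hF : F a < F (a + 1) := by
      have := mul_lt_F (one_lt_F a)
      rwa [mul_one] at this
    rw [nim_eq hF hF]
    unfold mulL
    have h1 : ofN (a + 1) (F a) = mk a 0 1 := by
      have h1 : (lv (a + 1)).toN (mk a 0 1) = F a := by
        rw [toN_mk, toN_zero, toN_one]; ring
      conv_lhs => rw [← h1]
      exact ofN_toN _ _
    rw [h1, mk_mul, toN_mk]
    simp only [mul_zero, add_zero, zero_add, mul_one, toN_one, toN_hh]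
    have := two_h a
    omega
  comm x y := by
    unfold nim mulL
    rw [add_comm x y, mul_comm]
  assoc x y z := by
    obtain ⟨a, hx, hy, hz⟩ : ∃ a, x < F a ∧ y < F a ∧ z < F a :=
      ⟨x + y + z, (lt_F x).trans_le (F_mono (by omega)), (lt_F y).trans_le (F_mono (by omega)),
        (lt_F z).trans_le (F_mono (by omega))⟩
    rw [nim_eq hx hy, nim_eq hy hz, nim_eq (mulL_lt a x y) hz, nim_eq hx (mulL_lt a y z)]
    unfold mulL
    rw [ofN_toN, ofN_toN, mul_assoc]
  distrib x y z := by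
    obtain ⟨a, hx, hy, hz⟩ : ∃ a, x < F a ∧ y < F a ∧ z < F a :=
      ⟨x + y + z, (lt_F x).trans_le (F_mono (by omega)), (lt_F y).trans_le (F_mono (by omega)),
        (lt_F z).trans_le (F_mono (by omega))⟩
    rw [nim_eq hx (xor_lt hy hz), nim_eq hx hy, nim_eq hx hz]
    unfold mulL
    have h1 : ofN a (y ^^^ z) = ofN a y + ofN a z := by
      apply toN_inj
      rw [toN_add, toN_ofN a _ (xor_lt hy hz), toN_ofN a y hy, toN_ofN a z hz]
    rw [h1, mul_add, toN_add]

end Pool.Agent.Helper3.Nim
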