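import Pool.Agent.Helper3.Nim.Basic

set_option autoImplicit false

namespace Pool.Agent.Helper3.Nim

/-- A sequence of integers is 2-regular if its 2-kernel generates a finitely generated
`ℤ`-module. -/
def TwoRegular (s : ℕ → ℤ) : Prop :=
  (Submodule.span ℤ {f : ℕ → ℤ | ∃ e r : ℕ, r < 2 ^ e ∧ f = fun n => s (2 ^ e * n + r)}).FG

/-- A two-dimensional array of integers is 2-regular if its 2-kernel generates a finitely
generated `ℤ`-module. -/
def TwoRegularArray (t : ℕ → ℕ → ℤ) : Prop :=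
  (Submodule.span ℤ {f : ℕ → ℕ → ℤ | ∃ e r r' : ℕ, r < 2 ^ e ∧ r' < 2 ^ e ∧
    f = fun m n => t (2 ^ e * m + r) (2 ^ e * n + r')}).FG

/-- reduction modulo 2 -/
def red : (ℕ → ℤ) →ₗ[ℤ] (ℕ → ZMod 2) where
  toFun f n := (f n : ZMod 2)
  map_add' f g := by funext n; simp
  map_smul' c f := by funext n; simp

lemma finite_red (N : Submodule ℤ (ℕ → ℤ)) (hN : N.FG) : ((N.map red : Submodule ℤ _) : Set (ℕ → ZMod 2)).Finite := by
  obtain ⟨T, hT⟩ := hN.map red
  have hsub : ((N.map red : Submodule ℤ _) : Set (ℕ → ZMod 2))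
      ⊆ (Submodule.span (ZMod 2) (T : Set (ℕ → ZMod 2)) : Set (ℕ → ZMod 2)) := by
    rw [← hT]
    intro x hx
    induction hx using Submodule.span_induction with
    | mem x hx => exact Submodule.subset_span hx
    | zero => exact Submodule.zero_mem _
    | add x y _ _ hx hy => exact Submodule.add_mem _ hx hy
    | smul c x _ hx => exact zsmul_mem hx c
  refine Set.Finite.subset ?_ hsub
  have : Module.Finite (ZMod 2) (Submodule.span (ZMod 2) (T : Set (ℕ → ZMod 2))) :=
    Module.Finite.span_of_finite _ T.finite_toSet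
  have : Finite (Submodule.span (ZMod 2) (T : Set (ℕ → ZMod 2))) :=
    Module.finite_of_finite (ZMod 2)
  exact Set.toFinite _

theorem core {mul : ℕ → ℕ → ℕ} (H : IsNimMul mul) (N : Submodule ℤ (ℕ → ℤ)) (hN : N.FG)
    (hmem : ∀ e : ℕ, (fun n => ((mul (2 ^ e * n) (2 ^ e * n) : ℕ) : ℤ)) ∈ N) : False := by
  have hfin := finite_red N hN
  have hinf : ¬ Function.Injective (fun e : ℕ =>
      red (fun n => ((mul (2 ^ e * n) (2 ^ e * n) : ℕ) : ℤ))) := by
    intro hinj
    have h1 : (Set.range (fun e : ℕ =>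
      red (fun n => ((mul (2 ^ e * n) (2 ^ e * n) : ℕ) : ℤ)))).Finite := by
      refine hfin.subset ?_
      rintro _ ⟨e, rfl⟩
      exact Submodule.mem_map_of_mem (hmem e)
    exact (Set.infinite_range_of_injective hinj) h1
  have hex : ∃ e p : ℕ, 0 < p ∧ ∀ j : ℕ, e ≤ j →
      mul (2 ^ j) (2 ^ j) % 2 = mul (2 ^ (j + p)) (2 ^ (j + p)) % 2 := by
    simp only [Function.Injective, not_forall] at hinf
    obtain ⟨e1, e2, he, hne⟩ := hinf
    wlog hlt : e1 < e2 generalizing e1 e2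
    · exact this e2 e1 he.symm (fun h => hne h.symm) (by omega)
    refine ⟨e1, e2 - e1, by omega, fun j hj => ?_⟩
    have h1 := congrFun he (2 ^ (j - e1))
    simp only [red, LinearMap.coe_mk, AddHom.coe_mk, Int.cast_natCast] at h1
    rw [← pow_add, ← pow_add] at h1
    have e3 : e1 + (j - e1) = j := by omega
    have e4 : e2 + (j - e1) = j + (e2 - e1) := by omega
    rw [e3, e4] at h1
    exact (ZMod.natCast_eq_natCast_iff' _ _ _).1 h1
  obtain ⟨e, p, hp, hper⟩ := hex
  -- choose a large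
  obtain ⟨a, ha⟩ : ∃ a : ℕ, e + p ≤ 2 ^ a := ⟨e + p, Nat.lt_two_pow_self.le⟩
  have hA : ∀ i < 2 ^ a, mul (2 ^ (2 ^ (a + 1) + i)) (2 ^ (2 ^ (a + 1) + i)) % 2 = 0 :=
    fun i hi => claimA H hi
  have hstep : ∀ i : ℕ, mul (2 ^ (2 ^ (a + 1) + i)) (2 ^ (2 ^ (a + 1) + i)) % 2 = 0 := by
    intro i
    induction i using Nat.strong_induction_on with
    | _ i ih =>
      by_cases hi : i < 2 ^ a
      · exact hA i hi
      · have hle : e ≤ 2 ^ (a + 1) + (i - p) := by
          rw [pow_succ]; omega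
        have h1 := hper (2 ^ (a + 1) + (i - p)) hle
        have e5 : 2 ^ (a + 1) + (i - p) + p = 2 ^ (a + 1) + i := by omega
        rw [e5] at h1
        rw [← h1]
        exact ih (i - p) (by omega)
  obtain ⟨j, _, hj⟩ := claimB H a
  have := hstep (2 ^ a + j)
  omega

theorem not_regular {mul : ℕ → ℕ → ℕ} (H : IsNimMul mul) :
    ¬ TwoRegular (fun n => (mul n n : ℤ)) := by
  intro hreg
  refine core H _ hreg fun e => Submodule.subset_span ⟨e, 0, by positivity, ?_⟩
  funext n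
  simp

theorem not_regular_array {mul : ℕ → ℕ → ℕ} (H : IsNimMul mul) :
    ¬ TwoRegularArray (fun m n => (mul m n : ℤ)) := by
  intro hreg
  let Δ : (ℕ → ℕ → ℤ) →ₗ[ℤ] (ℕ → ℤ) :=
    { toFun := fun f n => f n n
      map_add' := fun f g => rfl
      map_smul' := fun c f => rfl }
  refine core H _ (hreg.map Δ) fun e => ?_
  refine ⟨fun m n => (mul (2 ^ e * m) (2 ^ e * n) : ℤ), Submodule.subset_span
    ⟨e, 0, 0, by positivity, by positivity, ?_⟩, rfl⟩
  funext m n
  simp

end Pool.Agent.Helper3.Nim
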